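import Mathlib

/-!
# Sums of finite sets in `ℤ ^ (e + 1)` and a slab: definitions
-/

set_option autoImplicit false

open Finset Pointwise

namespace Pool.Agent.K4H23.NZ

/-- The lower bound for `|D + {0, ..., M} ^ e|`, `|D| = v`. -/
noncomputable def g (e : ℕ) (M v : ℝ) : ℝ := (v ^ (1 / (e : ℝ)) + M) ^ e

/-- The value for `k` equal slices. -/
noncomputable def V (e : ℕ) (M : ℝ) (k : ℕ) (n : ℝ) : ℝ := ((k : ℝ) + 1) * g e M (n / k)

/-- the box `{0, ..., M} ^ e` -/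
noncomputable def cube (e M : ℕ) : Finset (Fin e → ℤ) := Icc 0 fun _ => (M : ℤ)

/-- the box `{0, ..., m} × {0, ..., M} ^ e` -/
noncomputable def slab (e M m : ℕ) : Finset (Fin (e + 1) → ℤ) :=
  Icc 0 (Fin.cons (m : ℤ) fun _ => (M : ℤ))

/-- the segment `{0, ..., m} × {0}` -/
noncomputable def seg (e m : ℕ) : Finset (Fin (e + 1) → ℤ) := Icc 0 (Fin.cons (m : ℤ) 0)

/-- the slice of `A` over `t` -/
def slice {e : ℕ} (A : Finset (Fin (e + 1) → ℤ)) (t : ℤ) : Finset (Fin e → ℤ) :=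
  (A.filter fun x => x 0 = t).image Fin.tail

end Pool.Agent.K4H23.NZ
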