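import Pool.Agent.K4H23.NZ.Spec

set_option autoImplicit false

open Finset Pointwise

namespace Pool.Agent.K4H23.NZ

/-- Boxes. -/
theorem e1 (e M p r : ℕ) (hp : 1 ≤ p) (hr : 1 ≤ r) : ∃ R : Finset (Fin (e + 1) → ℤ),
    R.card = p * r ^ e ∧ (R + slab e M 1).card ≤ (p + 1) * (r + M) ^ e := by
  refine ⟨Icc 0 (Fin.cons ((p : ℤ) - 1) fun _ => (r : ℤ) - 1), ?_, ?_⟩
  · rw [Pi.card_Icc, Fin.prod_univ_succ]
    simp [Int.card_Icc]
  · have hsub : Icc 0 (Fin.cons ((p : ℤ) - 1) fun _ => (r : ℤ) - 1) + slab e M 1 ⊆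
        Icc (0 : Fin (e + 1) → ℤ) (Fin.cons (p : ℤ) fun _ => (r : ℤ) - 1 + M) := by
      intro z hz
      obtain ⟨x, hx, t, ht, rfl⟩ := mem_add.1 hz
      rw [slab, mem_Icc] at ht
      rw [mem_Icc] at hx ⊢
      constructor
      · intro i
        have h1 := hx.1 i
        have h2 := ht.1 i
        simp only [Pi.zero_apply, Pi.add_apply] at h1 h2 ⊢
        omega
      · intro i
        refine Fin.cases ?_ (fun j => ?_) i
        · have h1 := hx.2 0
          have h2 := ht.2 0
          simp only [Fin.cons_zero, Pi.add_apply] at h1 h2 ⊢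
          push_cast at h2
          omega
        · have h1 := hx.2 j.succ
          have h2 := ht.2 j.succ
          simp only [Fin.cons_succ, Pi.add_apply] at h1 h2 ⊢
          omega
    refine (card_le_card hsub).trans (le_of_eq ?_)
    rw [Pi.card_Icc, Fin.prod_univ_succ]
    simp only [Pi.zero_apply, Fin.cons_zero, Fin.cons_succ, Int.card_Icc, prod_const, card_univ,
      Fintype.card_fin]
    have e1 : ((p : ℤ) + 1 - 0).toNat = p + 1 := by omega
    have e2 : ((r : ℤ) - 1 + M + 1 - 0).toNat = r + M := by omega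
    rw [e1, e2]

end Pool.Agent.K4H23.NZ
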