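import Pool.Agent.K4H18.NZC3
import Pool.Agent.K4H18.NZS1
import Pool.Agent.K4H23.NZ.E1
import Pool.Agent.K4H30.NZ.B12
import Pool.Agent.K4H36.NZE2
import Pool.Agent.K4H38.NZC2
import Pool.Agent.K4H38.NZS3
import Pool.Agent.K4H85.NZD2
import Pool.Agent.K4H87.NZD3
import Pool.Agent.K4H91.NZ.B3
import Pool.Agent.K4H99.NZC1
import Pool.Agent.K4H99.NZS2

set_option autoImplicit false

open Finset Pointwise

namespace Pool.Agent.K4H23.NZ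

theorem s2 {e : ℕ} (M m : ℕ) (A : Finset (Fin (e + 1) → ℤ)) :
    ∑ t ∈ A.image (fun x => x 0), (slice A t + cube e M).card +
      m * (A.image Fin.tail + cube e M).card ≤ (A + slab e M m).card :=
  s2_of (fun m B => s1 m B) M m A

theorem b3 {e : ℕ} (he : 1 ≤ e) {M : ℕ} (hM : 1 ≤ M) (D : Finset (Fin e → ℤ)) (hD : D.Nonempty) :
    g e M D.card ≤ ((D + cube e M).card : ℝ) :=
  b3_of s2 s3a s3b s3c b1 b2 he hM D hD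

theorem d3 {e M p : ℕ} (he : 1 ≤ e) (hM : 4 * e < M) (hp : 1 ≤ p) : ∃ r₁ r₂ : ℕ,
    r₂ < r₁ ∧ 1 ≤ r₂ ∧ p * r₁ ^ e < (p + 1) * r₂ ^ e ∧ M * p ≤ r₁ ∧ r₂ ≤ M * (p + 1) ∧
      V e M p ((p * r₁ ^ e : ℕ) : ℝ) < V e M (p + 1) ((p * r₁ ^ e : ℕ) : ℝ) ∧
      V e M (p + 1) (((p + 1) * r₂ ^ e : ℕ) : ℝ) < V e M p (((p + 1) * r₂ ^ e : ℕ) : ℝ) :=
  d3_of d2a d2b he hM hp

end Pool.Agent.K4H23.NZ
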