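import Pool.Agent.K4H23.NV.Defs
import Pool.Agent.K4H23.NZ.All

/-!
# Infinitely many failures in every dimension
-/

set_option autoImplicit false

open Finset Pointwise

namespace Pool.Agent.K4H23.NZ

open Pool.Agent.K4H23.NV

theorem g_zero {e : ℕ} (he : 1 ≤ e) (M : ℝ) : g e M 0 = M ^ e := by
  rw [g, Real.zero_rpow (by positivity), zero_add]

theorem V_box {e : ℕ} (he : 1 ≤ e) (M : ℝ) {p r : ℕ} (hp : 1 ≤ p) :
    V e M p ((p * r ^ e : ℕ) : ℝ) = ((p : ℝ) + 1) * ((r : ℝ) + M) ^ e := by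
  have hp0 : (p : ℝ) ≠ 0 := by positivity
  have h1 : ((p * r ^ e : ℕ) : ℝ) / p = (r : ℝ) ^ e := by
    push_cast
    field_simp
  rw [V, h1, g, one_div, Real.pow_rpow_inv_natCast (by positivity) (by omega)]

/-- The lower bound for one set. -/
theorem lower {e M : ℕ} (he : 1 ≤ e) (hM : 1 ≤ M) {A : Finset (Fin (e + 1) → ℤ)}
    (hA : A.Nonempty) : ∃ k : ℕ, 1 ≤ k ∧
      ((A.card = k * (A.image Fin.tail).card ∧
        V e M k A.card ≤ ((A + slab e M 1).card : ℝ)) ∨
      ((k : ℝ) * ((A.image Fin.tail).card : ℝ) < A.card ∧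
        (A.card : ℝ) < ((k : ℝ) + 1) * ((A.image Fin.tail).card : ℝ) ∧
        ((k : ℝ) + 1) * g e M ((A.image Fin.tail).card : ℝ) +
          g e M ((A.card : ℝ) - k * ((A.image Fin.tail).card : ℝ)) ≤
            ((A + slab e M 1).card : ℝ))) := by
  set u := (A.image Fin.tail).card with hu
  have hu1 : 1 ≤ u := card_pos.2 (hA.image _)
  have hun : u ≤ A.card := card_image_le
  set k := A.card / u with hk
  set w := A.card % u with hw
  have hk1 : 1 ≤ k := (Nat.one_le_div_iff (by omega)).2 hun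
  have hkw : A.card = k * u + w := by
    rw [hk, hw, Nat.mul_comm]
    exact (Nat.div_add_mod _ _).symm
  have hwu : w < u := Nat.mod_lt _ (by omega)
  have hu0 : (0 : ℝ) < u := by exact_mod_cast hu1
  have hM1 : (0 : ℝ) < (M : ℝ) := by exact_mod_cast hM
  -- the sum over the slices
  have h1 := s2 M 1 A
  have h2 : ∑ t ∈ A.image (fun x => x 0), g e M ((slice A t).card : ℝ) ≤
      ((∑ t ∈ A.image (fun x => x 0), (slice A t + cube e M).card : ℕ) : ℝ) := by
    push_cast
    exact sum_le_sum fun t ht => b3 he hM _ (s3c ht)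
  have h3 : g e M (u : ℝ) ≤ ((A.image Fin.tail + cube e M).card : ℝ) := b3 he hM _ (hA.image _)
  have h4 : (((∑ t ∈ A.image (fun x => x 0), (slice A t + cube e M).card) : ℕ) : ℝ) +
      ((A.image Fin.tail + cube e M).card : ℝ) ≤ ((A + slab e M 1).card : ℝ) := by
    rw [one_mul] at h1
    exact_mod_cast h1
  have hsum : ∑ t ∈ A.image (fun x => x 0), ((slice A t).card : ℝ) = k * (u : ℝ) + (w : ℝ) := by
    have := s3a A
    rw [hkw] at this
    exact_mod_cast this
  have h5 := c2 (c1 he hM1.le) (by rw [g_zero he]; positivity) (A.image fun x => x 0)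
    (fun t => ((slice A t).card : ℝ)) hu0
    (fun t ht => ⟨by exact_mod_cast card_pos.2 (s3c ht),
      by exact_mod_cast card_le_card (s3b A t)⟩) k (w := (w : ℝ)) (by positivity)
    (by exact_mod_cast hwu) hsum
  refine ⟨k, hk1, ?_⟩
  rcases Nat.eq_zero_or_pos w with h0 | hpos
  · left
    have e1 : A.card = k * u := by omega
    refine ⟨e1, ?_⟩
    have hk0 : (k : ℝ) ≠ 0 := by
      have : (0 : ℝ) < k := by exact_mod_cast hk1
      exact this.ne'
    have e2 : (A.card : ℝ) / k = (u : ℝ) := by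
      rw [e1]
      push_cast
      field_simp
    rw [V, e2]
    have hw0 : ¬ (0 : ℝ) < (w : ℝ) := by rw [h0]; simp
    rw [if_neg hw0, add_zero] at h5
    linarith
  · right
    have hw0 : (0 : ℝ) < (w : ℝ) := by exact_mod_cast hpos
    rw [if_pos hw0] at h5
    have e1 : (A.card : ℝ) = k * u + w := by exact_mod_cast hkw
    have hwu' : (w : ℝ) < u := by exact_mod_cast hwu
    have e2 : (A.card : ℝ) - k * u = w := by rw [e1]; ring
    refine ⟨by rw [e1]; linarith, by rw [e1]; linarith, ?_⟩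
    rw [e2]
    linarith

/-- If the value for `q` slices is the smallest one then an optimal set has `q` points in each fibre
on the average. -/
theorem unique {e M : ℕ} (he : 1 ≤ e) (hM : 1 ≤ M) {A : Finset (Fin (e + 1) → ℤ)}
    (hA : A.Nonempty) {q : ℕ}
    (hmin : ∀ k : ℕ, 1 ≤ k → k ≠ q → V e M q A.card < V e M k A.card)
    (hcard : ((A + slab e M 1).card : ℝ) ≤ V e M q A.card) :
    A.card = q * (A.image Fin.tail).card := by
  have hM1 : (0 : ℝ) < (M : ℝ) := by exact_mod_cast hM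
  have hle : ∀ k : ℕ, 1 ≤ k → V e M q A.card ≤ V e M k A.card := by
    intro k hk
    by_cases h : k = q
    · rw [h]
    · exact (hmin k hk h).le
  obtain ⟨k, hk, h | ⟨h1, h2, h3⟩⟩ := lower he hM hA
  · by_cases hkq : k = q
    · rw [← hkq]; exact h.1
    · exact absurd (lt_of_lt_of_le (hmin k hk hkq) (h.2.trans hcard)) (lt_irrefl _)
  · exfalso
    have hn : (0 : ℝ) < A.card := by exact_mod_cast card_pos.2 hA
    have h4 := c3 (c1 he hM1.le) (by rw [g_zero he]; positivity) k hk hn h1 h2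
      (c := V e M q A.card) (hle k hk) (by
        have := hle (k + 1) (by omega)
        rw [V] at this ⊢
        have e1 : (((k + 1 : ℕ) : ℝ) + 1) = (k : ℝ) + 2 := by push_cast; ring
        rw [V, e1] at this
        have e2 : ((k + 1 : ℕ) : ℝ) = (k : ℝ) + 1 := by push_cast; ring
        rw [e2] at this
        exact this)
    linarith

theorem boundary_add {d : ℕ} {B : Finset (Fin d → ℤ)} (hB : 0 ∈ B) (S : Finset (Fin d → ℤ)) :
    boundary (B.erase 0) S + S.card = (S + B).card := by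
  have hsub : S ⊆ S + B := fun x hx => mem_add.2 ⟨x, hx, 0, hB, add_zero x⟩
  have he : (S.biUnion fun x => (B.erase 0).image fun t => x + t) \ S = (S + B) \ S := by
    ext z
    simp only [mem_sdiff, mem_biUnion, mem_image, mem_erase, mem_add]
    constructor
    · rintro ⟨⟨x, hx, t, ⟨-, ht⟩, rfl⟩, hz⟩
      exact ⟨⟨x, hx, t, ht, rfl⟩, hz⟩
    · rintro ⟨⟨x, hx, t, ht, rfl⟩, hz⟩
      refine ⟨⟨x, hx, t, ⟨fun h0 => hz ?_, ht⟩, rfl⟩, hz⟩
      rw [h0, add_zero]
      exact hx
  rw [boundary, he]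
  exact card_sdiff_add_card_eq_card hsub

/-- The shadow of an optimal set. -/
theorem shadow_eq {e M : ℕ} (he : 1 ≤ e) (hM : 1 ≤ M) {p r : ℕ} (hp : 1 ≤ p) (hr : 1 ≤ r)
    {S : Finset (Fin (e + 1) → ℤ)} (hS : S.card = p * r ^ e)
    (hopt : boundary ((slab e M 1).erase 0) S = minBoundary ((slab e M 1).erase 0) (p * r ^ e))
    (hmin : ∀ k : ℕ, 1 ≤ k → k ≠ p →
      V e M p ((p * r ^ e : ℕ) : ℝ) < V e M k ((p * r ^ e : ℕ) : ℝ)) :
    (S.image Fin.tail).card = r ^ e := by
  have h0 : (0 : Fin (e + 1) → ℤ) ∈ slab e M 1 := by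
    rw [slab, mem_Icc]
    refine ⟨le_rfl, fun i => ?_⟩
    refine Fin.cases ?_ (fun j => ?_) i
    · simp
    · simp
  have hpos : 0 < p * r ^ e := by positivity
  have hne : S.Nonempty := by rw [← card_pos, hS]; exact hpos
  obtain ⟨R, hR, hRs⟩ := e1 e M p r hp hr
  have h1 := boundary_add h0 S
  have h2 := boundary_add h0 R
  have h3 : minBoundary ((slab e M 1).erase 0) (p * r ^ e) ≤
      boundary ((slab e M 1).erase 0) R := Nat.sInf_le ⟨R, hR, rfl⟩
  have h4 : (S + slab e M 1).card ≤ (p + 1) * (r + M) ^ e := by omega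
  have h5 : ((S + slab e M 1).card : ℝ) ≤ V e M p S.card := by
    rw [hS, V_box he _ hp]
    exact_mod_cast h4
  have h6 := unique he hM hne (q := p) (by rw [hS]; exact hmin) h5
  rw [hS] at h6
  exact (Nat.eq_of_mul_eq_mul_left (by omega) h6).symm

/-- **Two sizes.** -/
theorem two_sizes {e M : ℕ} (he : 1 ≤ e) (hM : 4 * e < M) (N : ℕ) : ∃ n₁ n₂ : ℕ,
    N ≤ n₁ ∧ n₁ < n₂ ∧ ∀ S₁ S₂ : Finset (Fin (e + 1) → ℤ), S₁.card = n₁ → S₂.card = n₂ →
      S₁ ⊆ S₂ → ¬ (boundary ((slab e M 1).erase 0) S₁ =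
        minBoundary ((slab e M 1).erase 0) n₁ ∧
        boundary ((slab e M 1).erase 0) S₂ = minBoundary ((slab e M 1).erase 0) n₂) := by
  set p := N + 1 with hp
  have hp1 : 1 ≤ p := by omega
  have hM1 : 1 ≤ M := by omega
  have hMr : (0 : ℝ) < (M : ℝ) := by exact_mod_cast hM1
  obtain ⟨r₁, r₂, hr, hr2, hn, hr1M, hr2M, hV1, hV2⟩ := d3 he hM hp1
  have hr1pos : 1 ≤ r₁ := by omega
  set n₁ := p * r₁ ^ e with hn1
  set n₂ := (p + 1) * r₂ ^ e with hn2
  have hlow : M ^ e * p ^ (e + 1) ≤ n₁ := by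
    calc M ^ e * p ^ (e + 1) = p * (M * p) ^ e := by rw [mul_pow]; ring
      _ ≤ p * r₁ ^ e := Nat.mul_le_mul_left _ (Nat.pow_le_pow_left hr1M e)
  have hhigh : n₂ ≤ M ^ e * (p + 1) ^ (e + 1) := by
    calc (p + 1) * r₂ ^ e ≤ (p + 1) * (M * (p + 1)) ^ e :=
          Nat.mul_le_mul_left _ (Nat.pow_le_pow_left hr2M e)
      _ = M ^ e * (p + 1) ^ (e + 1) := by rw [mul_pow]; ring
  have hn1pos : 0 < n₁ := by positivity
  have below : ∀ n : ℕ, n₁ ≤ n → ∀ k : ℕ, 1 ≤ k → k < p → V e M p (n : ℝ) < V e M k (n : ℝ) := by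
    intro n hnn k hk hkp
    refine d2a he hMr hk hkp ?_
    exact_mod_cast hlow.trans hnn
  have above : ∀ n : ℕ, 0 < n → n ≤ n₂ → ∀ k : ℕ, p + 1 < k →
      V e M (p + 1) (n : ℝ) < V e M k (n : ℝ) := by
    intro n hpos hnn k hkp
    refine d2b he hMr (by omega) hkp (by exact_mod_cast hpos) ?_
    exact_mod_cast hnn.trans hhigh
  refine ⟨n₁, n₂, ?_, hn, ?_⟩
  · calc N ≤ p := by omega
      _ ≤ p * r₁ ^ e := Nat.le_mul_of_pos_right _ (by positivity)
  · rintro S₁ S₂ h1 h2 h12 ⟨o1, o2⟩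
    have q1 : (S₁.image Fin.tail).card = r₁ ^ e := by
      refine shadow_eq he hM1 hp1 hr1pos h1 o1 fun k hk hkp => ?_
      rcases lt_trichotomy k p with h | h | h
      · exact below _ le_rfl k hk h
      · exact absurd h hkp
      · rcases Nat.lt_or_ge (p + 1) k with h' | h'
        · exact hV1.trans (above _ hn1pos hn.le k h')
        · have : k = p + 1 := by omega
          rw [this]
          exact hV1
    have q2 : (S₂.image Fin.tail).card = r₂ ^ e := by
      refine shadow_eq he hM1 (by omega) hr2 h2 o2 fun k hk hkp => ?_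
      rcases lt_trichotomy k p with h | h | h
      · exact hV2.trans (below _ hn.le k hk h)
      · rw [h]; exact hV2
      · exact above _ (hn1pos.trans hn) le_rfl k (by omega)
    have h3 : (S₁.image Fin.tail).card ≤ (S₂.image Fin.tail).card :=
      card_le_card (image_subset_image h12)
    rw [q1, q2] at h3
    have h4 : r₂ ^ e < r₁ ^ e := Nat.pow_lt_pow_left hr (by omega)
    omega

end Pool.Agent.K4H23.NZ
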